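import Pool.Agent.MWP.Stmts

/-!
# Row HEX of block MWP: the height exists
-/

namespace Pool.Agent.MWP.H37

open Pool.Agent.Helper14_MV Pool.Agent.Helper2_MV Pool.Agent.MWF Pool.Agent.MWP

theorem chn_length_le {v T : List ℕ} (h : Chn v T) : T.length ≤ v.length := by
  have hn : T.Nodup := h.2.imp (fun h1 => h1.1)
  exact (hn.subperm h.1).length_le

theorem hex : HexStmt := by
  classical
  intro v
  have h0 : ∃ T, Chn v T ∧ T.length = 0 :=
    ⟨[], ⟨fun x hx => absurd hx (by simp), List.Pairwise.nil⟩, rfl⟩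
  refine ⟨Nat.findGreatest (fun n => ∃ T, Chn v T ∧ T.length = n) v.length, ?_, ?_⟩
  · exact Nat.findGreatest_spec (P := fun n => ∃ T, Chn v T ∧ T.length = n) (Nat.zero_le _) h0
  · intro T hT
    exact Nat.le_findGreatest (P := fun n => ∃ T, Chn v T ∧ T.length = n) (chn_length_le hT)
      ⟨T, hT, rfl⟩

end Pool.Agent.MWP.H37
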