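import Pool.Agent.MWP.Stmts

/-!
# Row HGT of block MWP: a chain inside a substituted word comes from a chain
-/

namespace Pool.Agent.MWP.H37

open Pool.Agent.Helper14_MV Pool.Agent.Helper2_MV Pool.Agent.MWF Pool.Agent.MWP

theorem hgt : HgtStmt := by
  classical
  intro f P M Q T hM hT hP
  have hch : ∀ x : ℕ, ∃ z : ℕ, x ∈ T → z ∈ M ∧ x ∈ f z := by
    intro x
    by_cases hx : x ∈ T
    · obtain ⟨z, hz, hxz⟩ := List.mem_flatMap.1 (hT x hx)
      exact ⟨z, fun _ => ⟨hz, hxz⟩⟩
    · exact ⟨0, fun h => absurd h hx⟩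
  choose g hg using hch
  refine ⟨T.map g, ⟨?_, ?_⟩, by simp⟩
  · intro x hx
    obtain ⟨y, hy, rfl⟩ := List.mem_map.1 hx
    exact (hg y hy).1
  · rw [List.pairwise_map]
    apply List.Pairwise.imp_of_mem _ hP
    intro x y hx hy hxy
    have key : ¬ [g y, g x].Sublist M := by
      intro h
      apply hxy.2
      apply List.Sublist.trans _ (List.sublist_append_left _ _)
      apply List.Sublist.trans _ (List.sublist_append_right _ _)
      exact pair_flatMap.2 (Or.inr ⟨g y, g x, h, (hg y hy).2, (hg x hx).2⟩)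
    refine ⟨?_, key⟩
    intro he
    apply key
    rw [he]
    exact hM _ (hg y hy).1

end Pool.Agent.MWP.H37
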